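import Pool.Agent.Q253.NF.Stm
import Pool.Agent.Q151.LQ.PFg

set_option autoImplicit false

/-!
# Project NF, job VF: the constants
-/

namespace Pool.Agent.Q24.NF

open MeasureTheory Filter Topology Set Complex
open scoped ComplexConjugate
open Pool.Agent.Q253.NF

theorem m_zero (D : Dat) {a : ℂ} (ha : 1 / 2 < |a.re|) : D.m a = 0 := by
  have h : D.X a ≠ 0 := fun h => absurd (D.strip a h) (not_le.2 ha)
  unfold Dat.m analyticOrderNatAt
  rw [(D.diff.analyticAt a).analyticOrderAt_eq_zero.2 h]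
  rfl

theorem gsum (D : Dat) (hs : Summable (fun a : ℂ => (D.m a : ℝ) / (1 + ‖a‖ ^ 2))) (c : ℂ → ℂ) (K : ℝ)
    (hc : ∀ a : ℂ, |a.re| ≤ 1 / 2 → ‖c a‖ ≤ K / (1 + ‖a‖ ^ 2)) :
    Summable (fun a : ℂ => (D.m a : ℂ) * c a) := by
  apply Summable.of_norm_bounded (hs.mul_left K)
  intro a
  rw [norm_mul, Complex.norm_natCast]
  by_cases h : |a.re| ≤ 1 / 2
  · calc (D.m a : ℝ) * ‖c a‖ ≤ (D.m a : ℝ) * (K / (1 + ‖a‖ ^ 2)) :=
        mul_le_mul_of_nonneg_left (hc a h) (Nat.cast_nonneg _)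
      _ = K * ((D.m a : ℝ) / (1 + ‖a‖ ^ 2)) := by ring
  · rw [m_zero D (not_le.1 h)]
    simp

section
variable {ι : Type} [Fintype ι]

theorem nn_zero (D : ι → Dat) (n : ι → ℤ) (h : Hyp D n) {a : ℂ} (ha : a ∉ Set.range (fun γ : ℝ => (γ : ℂ) * I)) :
    nn D n a = 0 := by
  apply h
  intro h0
  apply ha
  refine ⟨a.im, ?_⟩
  apply Complex.ext <;> simp [h0]

theorem inj : Function.Injective (fun γ : ℝ => (γ : ℂ) * I) := by
  intro x y h
  have := congrArg Complex.im h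
  simpa using this

theorem exch (D : ι → Dat) (n : ι → ℤ) (h : Hyp D n) (c : ℂ → ℂ)
    (hs : ∀ i, Summable (fun a : ℂ => ((D i).m a : ℂ) * c a)) :
    ∑ i, (n i : ℂ) * ∑' a : ℂ, ((D i).m a : ℂ) * c a =
      ∑' γ : ℝ, ((nn D n (γ * I) : ℤ) : ℂ) * c (γ * I) ∧
    Summable (fun γ : ℝ => ((nn D n (γ * I) : ℤ) : ℂ) * c (γ * I)) := by
  have h1 : ∀ a : ℂ, ∑ i, (n i : ℂ) * (((D i).m a : ℂ) * c a) = ((nn D n a : ℤ) : ℂ) * c a := by
    intro a
    unfold nn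
    push_cast
    rw [Finset.sum_mul]
    exact Finset.sum_congr rfl fun i _ => by ring
  have hsum : Summable (fun a : ℂ => ((nn D n a : ℤ) : ℂ) * c a) := by
    have := summable_sum (s := Finset.univ) (f := fun (i : ι) (a : ℂ) => (n i : ℂ) * (((D i).m a : ℂ) * c a))
      fun i _ => (hs i).mul_left _
    refine this.congr fun a => h1 a
  refine ⟨?_, ?_⟩
  · calc ∑ i, (n i : ℂ) * ∑' a : ℂ, ((D i).m a : ℂ) * c a
        = ∑ i, ∑' a : ℂ, (n i : ℂ) * (((D i).m a : ℂ) * c a) :=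
          Finset.sum_congr rfl fun i _ => tsum_mul_left.symm
      _ = ∑' a : ℂ, ∑ i, (n i : ℂ) * (((D i).m a : ℂ) * c a) :=
          (Summable.tsum_finsetSum fun i _ => (hs i).mul_left _).symm
      _ = ∑' a : ℂ, ((nn D n a : ℤ) : ℂ) * c a := tsum_congr h1
      _ = ∑' γ : ℝ, ((nn D n (γ * I) : ℤ) : ℂ) * c (γ * I) := by
          refine (inj.tsum_eq ?_).symm
          intro a ha
          by_contra hn
          apply ha
          simp only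
          rw [nn_zero D n h hn]
          simp
  · exact hsum.comp_injective inj

end

theorem nm_sub {a : ℂ} (ha : |a.re| ≤ 1 / 2) : (1 / 4 : ℝ) + a.im ^ 2 ≤ ‖1 - a‖ ^ 2 := by
  rw [Complex.sq_norm, Complex.normSq_apply]
  have := abs_le.1 ha
  simp only [sub_re, one_re, sub_im, one_im]
  nlinarith

theorem nm_add {a : ℂ} (ha : |a.re| ≤ 1 / 2) : (1 / 4 : ℝ) + a.im ^ 2 ≤ ‖1 + a‖ ^ 2 := by
  rw [Complex.sq_norm, Complex.normSq_apply]
  have := abs_le.1 ha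
  simp only [add_re, one_re, add_im, one_im]
  nlinarith

theorem nm_all {a : ℂ} (ha : |a.re| ≤ 1 / 2) : (1 + ‖a‖ ^ 2) ≤ 5 * ((1 / 4 : ℝ) + a.im ^ 2) := by
  rw [Complex.sq_norm, Complex.normSq_apply]
  have : a.re ^ 2 ≤ 1 / 4 := by
    rw [← sq_abs]
    nlinarith [abs_nonneg a.re]
  nlinarith [sq_nonneg a.im]

theorem ne_sub {a : ℂ} (ha : |a.re| ≤ 1 / 2) : (1 - a) ≠ 0 := by
  intro h
  have := nm_sub ha
  rw [h] at this
  simp at this
  nlinarith [sq_nonneg a.im]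

theorem ne_add {a : ℂ} (ha : |a.re| ≤ 1 / 2) : (1 + a) ≠ 0 := by
  intro h
  have := nm_add ha
  rw [h] at this
  simp at this
  nlinarith [sq_nonneg a.im]

theorem lo_sub {a : ℂ} (ha : |a.re| ≤ 1 / 2) : (1 + ‖a‖ ^ 2) ≤ 5 * ‖1 - a‖ ^ 2 :=
  (nm_all ha).trans (by linarith [nm_sub ha])

theorem lo_add {a : ℂ} (ha : |a.re| ≤ 1 / 2) : (1 + ‖a‖ ^ 2) ≤ 5 * ‖1 + a‖ ^ 2 :=
  (nm_all ha).trans (by linarith [nm_add ha])

theorem lo_prod {a : ℂ} (ha : |a.re| ≤ 1 / 2) : (1 + ‖a‖ ^ 2) ≤ 5 * ‖1 - a ^ 2‖ := by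
  have h1 := lo_sub ha
  have h2 := lo_add ha
  have e : (1 - a ^ 2) = (1 - a) * (1 + a) := by ring
  rw [e, norm_mul]
  have hp : 0 ≤ 1 + ‖a‖ ^ 2 := by positivity
  have h3 : (1 + ‖a‖ ^ 2) ^ 2 ≤ (5 * (‖1 - a‖ * ‖1 + a‖)) ^ 2 := by
    calc (1 + ‖a‖ ^ 2) ^ 2 = (1 + ‖a‖ ^ 2) * (1 + ‖a‖ ^ 2) := by ring
      _ ≤ (5 * ‖1 - a‖ ^ 2) * (5 * ‖1 + a‖ ^ 2) := mul_le_mul h1 h2 hp (by positivity)
      _ = (5 * (‖1 - a‖ * ‖1 + a‖)) ^ 2 := by ring
  exact le_of_sq_le_sq h3 (by positivity)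
where
  le_of_sq_le_sq {x y : ℝ} (h : x ^ 2 ≤ y ^ 2) (hy : 0 ≤ y) : x ≤ y := by
    by_contra hn
    push Not at hn
    nlinarith

theorem bd_c {a : ℂ} (ha : |a.re| ≤ 1 / 2) : ‖2 / (1 - a ^ 2)‖ ≤ 10 / (1 + ‖a‖ ^ 2) := by
  have h1 := lo_prod ha
  have hp : 0 < 1 + ‖a‖ ^ 2 := by positivity
  have h0 : 0 < ‖1 - a ^ 2‖ := by nlinarith
  rw [norm_div, Complex.norm_ofNat, div_le_div_iff₀ h0 hp]
  linarith

theorem bd_s {a : ℂ} (ha : |a.re| ≤ 1 / 2) : ‖2 / (1 - a) ^ 2‖ ≤ 10 / (1 + ‖a‖ ^ 2) := by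
  have h1 := lo_sub ha
  have hp : 0 < 1 + ‖a‖ ^ 2 := by positivity
  have h0 : 0 < ‖1 - a‖ ^ 2 := by nlinarith
  rw [norm_div, Complex.norm_ofNat, norm_pow, div_le_div_iff₀ h0 hp]
  linarith

/-- twice the real part of the logarithmic derivative at `1` -/
theorem re_ld (hPF : S_PF) (D : Dat) : ((2 * (logDeriv D.X 1).re : ℝ) : ℂ) = ∑' a : ℂ, (D.m a : ℂ) * (2 / (1 - a ^ 2)) := by
  obtain ⟨-, h1, -⟩ := hPF D
  have h2 := h1 1 (-1) (by norm_num) (by norm_num)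
  have h3 : logDeriv D.X (-1) = -(conj (logDeriv D.X 1)) := by
    have := Pool.Agent.Q151.LQ.logDeriv_refl D.diff D.sym 1
    rwa [map_one] at this
  rw [h3, sub_neg_eq_add, Complex.add_conj] at h2
  rw [h2]
  refine tsum_congr fun a => ?_
  by_cases ha : |a.re| ≤ 1 / 2
  · congr 1
    have e1 := ne_sub ha
    have e2 := ne_add ha
    have e3 : (1 - a ^ 2) = (1 - a) * (1 + a) := by ring
    have e4 : (-1 - a) = -(1 + a) := by ring
    rw [e3, e4, div_neg, sub_neg_eq_add]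
    field_simp
    ring
  · rw [m_zero D (not_le.1 ha)]
    simp

theorem V_eq (hPF : S_PF) (D : Dat) : D.V = (∑' a : ℂ, (D.m a : ℂ) * (2 / (1 - a ^ 2) + 2 / (1 - a) ^ 2)).re := by
  obtain ⟨hs, -, h3⟩ := hPF D
  have hd := h3.deriv
  have s1 := gsum D hs (fun a => 2 / (1 - a ^ 2)) 10 fun a ha => bd_c ha
  have s2 := gsum D hs (fun a => 2 / (1 - a) ^ 2) 10 fun a ha => bd_s ha
  have e1 : ∑' a : ℂ, (D.m a : ℂ) * (2 / (1 - a ^ 2) + 2 / (1 - a) ^ 2) =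
      ∑' a : ℂ, (D.m a : ℂ) * (2 / (1 - a ^ 2)) + ∑' a : ℂ, (D.m a : ℂ) * (2 / (1 - a) ^ 2) := by
    rw [← s1.tsum_add s2]
    exact tsum_congr fun a => by ring
  have e2 : ∑' a : ℂ, (D.m a : ℂ) * (2 / (1 - a) ^ 2) = -(2 * deriv (logDeriv D.X) 1) := by
    rw [hd, ← tsum_mul_left, ← tsum_neg]
    exact tsum_congr fun a => by ring
  rw [e1, e2, ← re_ld hPF D, add_re, neg_re, ofReal_re]
  unfold Dat.V
  rw [sub_re]
  have : (2 * deriv (logDeriv D.X) 1).re = 2 * (deriv (logDeriv D.X) 1).re := by simp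
  rw [this]
  ring

theorem vf (hPF : Pool.Agent.Q253.NF.S_PF) : Pool.Agent.Q253.NF.S_VF := by
  intro ι _ D n hyp
  have hs : ∀ i, Summable (fun a : ℂ => ((D i).m a : ℝ) / (1 + ‖a‖ ^ 2)) := fun i => (hPF (D i)).1
  have hγ : ∀ γ : ℝ, |((γ : ℂ) * I).re| ≤ 1 / 2 := fun γ => by simp
  have hsq : ∀ γ : ℝ, ((γ : ℂ) * I) ^ 2 = -((γ : ℂ) ^ 2) := fun γ => by
    rw [mul_pow, I_sq]; ring
  have hpos : ∀ γ : ℝ, (0 : ℝ) < 1 + γ ^ 2 := fun γ => by positivity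
  have hc2 : ∀ γ : ℝ, (2 : ℂ) / (1 - ((γ : ℂ) * I) ^ 2) = ((2 / (1 + γ ^ 2) : ℝ) : ℂ) := by
    intro γ
    rw [hsq]
    push_cast
    rw [sub_neg_eq_add]
  refine ⟨?_, ?_, ?_, ?_⟩
  · have h1 : Summable (fun γ : ℝ => ∑ i, |(n i : ℝ)| * (((D i).m (γ * I) : ℝ) / (1 + ‖(γ : ℂ) * I‖ ^ 2))) :=
      summable_sum fun i _ => ((hs i).comp_injective inj).mul_left _
    refine Summable.of_nonneg_of_le (fun γ => by positivity) (fun γ => ?_) h1
    have e : ‖(γ : ℂ) * I‖ ^ 2 = γ ^ 2 := by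
      rw [norm_mul, Complex.norm_I, mul_one, Complex.norm_real, Real.norm_eq_abs, sq_abs]
    rw [e]
    have : |(nn D n (γ * I) : ℝ)| ≤ ∑ i, |(n i : ℝ)| * ((D i).m (γ * I) : ℝ) := by
      unfold nn
      push_cast
      refine (Finset.abs_sum_le_sum_abs _ _).trans (Finset.sum_le_sum fun i _ => ?_)
      rw [abs_mul, Nat.abs_cast]
    calc |(nn D n (γ * I) : ℝ)| / (1 + γ ^ 2) ≤ (∑ i, |(n i : ℝ)| * ((D i).m (γ * I) : ℝ)) / (1 + γ ^ 2) :=
          div_le_div_of_nonneg_right this (hpos γ).le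
      _ = _ := by
          rw [Finset.sum_div]
          exact Finset.sum_congr rfl fun i _ => by ring
  · have h1 := (exch D n hyp (fun a => 2 / (1 - a ^ 2)) fun i => gsum (D i) (hs i) _ 10 fun a ha => bd_c ha).1
    have h2 : ((∑ i, (n i : ℝ) * (2 * (logDeriv (D i).X 1).re) : ℝ) : ℂ) =
        ((∑' γ : ℝ, (nn D n (γ * I) : ℝ) * (2 / (1 + γ ^ 2)) : ℝ) : ℂ) := by
      rw [Complex.ofReal_sum, Complex.ofReal_tsum]
      calc ∑ i, (((n i : ℝ) * (2 * (logDeriv (D i).X 1).re) : ℝ) : ℂ)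
          = ∑ i, (n i : ℂ) * ∑' a : ℂ, ((D i).m a : ℂ) * (2 / (1 - a ^ 2)) := by
            refine Finset.sum_congr rfl fun i _ => ?_
            rw [← re_ld hPF (D i)]
            push_cast
            ring
        _ = _ := h1
        _ = _ := by
            refine tsum_congr fun γ => ?_
            rw [hc2, Complex.ofReal_mul]
            push_cast
            ring
    exact_mod_cast h2
  · have hK : ∀ a : ℂ, |a.re| ≤ 1 / 2 → ‖2 / (1 - a ^ 2) + 2 / (1 - a) ^ 2‖ ≤ 20 / (1 + ‖a‖ ^ 2) := by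
      intro a ha
      refine (norm_add_le _ _).trans ?_
      have := add_le_add (bd_c ha) (bd_s ha)
      refine this.trans (le_of_eq ?_)
      ring
    obtain ⟨h1, h1s⟩ := exch D n hyp (fun a => 2 / (1 - a ^ 2) + 2 / (1 - a) ^ 2) fun i =>
      gsum (D i) (hs i) _ 20 hK
    have h2 : ∑ i, (n i : ℝ) * (D i).V =
        (∑ i, (n i : ℂ) * ∑' a : ℂ, ((D i).m a : ℂ) * (2 / (1 - a ^ 2) + 2 / (1 - a) ^ 2)).re := by
      rw [Complex.re_sum]
      refine Finset.sum_congr rfl fun i _ => ?_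
      rw [V_eq hPF (D i)]
      have : ((n i : ℤ) : ℂ) = ((n i : ℝ) : ℂ) := by push_cast; rfl
      rw [this, Complex.re_ofReal_mul]
    rw [h2, h1, Complex.re_tsum h1s]
    refine tsum_congr fun γ => ?_
    have : ((nn D n (γ * I) : ℤ) : ℂ) = ((nn D n (γ * I) : ℝ) : ℂ) := by push_cast; rfl
    rw [this, Complex.re_ofReal_mul, hc2, add_re, ofReal_re]
    congr 1
    have e1 : (2 : ℂ) / (1 - (γ : ℂ) * I) ^ 2 = ((2 / (1 + γ ^ 2) ^ 2 : ℝ) : ℂ) * (1 + (γ : ℂ) * I) ^ 2 := by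
      have h3 : (1 - (γ : ℂ) * I) ≠ 0 := ne_sub (hγ γ)
      have h4 : ((1 : ℂ) + (γ : ℂ) ^ 2) ≠ 0 := by
        have := (hpos γ).ne'
        exact_mod_cast this
      have h5 : ((1 : ℂ) + (γ : ℂ) ^ 2) = (1 - (γ : ℂ) * I) * (1 + (γ : ℂ) * I) := by
        have := hsq γ
        linear_combination this
      have h6 : (1 + (γ : ℂ) * I) ≠ 0 := ne_add (hγ γ)
      push_cast
      rw [h5]
      field_simp
    rw [e1, Complex.re_ofReal_mul]
    have e2 : ((1 + (γ : ℂ) * I) ^ 2).re = 1 - γ ^ 2 := by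
      simp [pow_two, Complex.add_re, Complex.mul_re, Complex.mul_im]
    rw [e2]
    have := (hpos γ).ne'
    field_simp
    ring
  · intro u
    have hK : ∀ a : ℂ, |a.re| ≤ 1 / 2 → ‖2 / (1 - a ^ 2) * cexp (a * u)‖ ≤ (10 * Real.exp (|u|)) / (1 + ‖a‖ ^ 2) := by
      intro a ha
      rw [norm_mul, Complex.norm_exp]
      have h1 : Real.exp ((a * u).re) ≤ Real.exp |u| := by
        apply Real.exp_le_exp.2
        have : (a * (u : ℂ)).re = a.re * u := by simp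
        rw [this]
        calc a.re * u ≤ |a.re * u| := le_abs_self _
          _ = |a.re| * |u| := abs_mul _ _
          _ ≤ 1 * |u| := mul_le_mul_of_nonneg_right (by linarith) (abs_nonneg u)
          _ = |u| := one_mul _
      calc ‖2 / (1 - a ^ 2)‖ * Real.exp ((a * u).re) ≤ (10 / (1 + ‖a‖ ^ 2)) * Real.exp |u| :=
            mul_le_mul (bd_c ha) h1 (Real.exp_pos _).le (by positivity)
        _ = _ := by ring
    have h1 := (exch D n hyp (fun a => 2 / (1 - a ^ 2) * cexp (a * u)) fun i =>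
      gsum (D i) (hs i) _ _ hK).1
    have h2 : ∑ i, (n i : ℂ) * (D i).Z u =
        ∑ i, (n i : ℂ) * ∑' a : ℂ, ((D i).m a : ℂ) * (2 / (1 - a ^ 2) * cexp (a * u)) := by
      refine Finset.sum_congr rfl fun i _ => ?_
      congr 1
      exact tsum_congr fun a => by ring
    rw [h2, h1]
    refine tsum_congr fun γ => ?_
    rw [hc2]
    have e3 : I * (γ : ℂ) * (u : ℂ) = (γ : ℂ) * I * u := by ring
    rw [e3, Complex.ofReal_mul]
    push_cast
    ring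

end Pool.Agent.Q24.NF
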